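import Pool.Agent.W78.GS.Basic
import Pool.Agent.W358.GT.Fint

/-!
GS-10: from a positive proportion of triples to integers, for sets of integers with few divisors
-/

set_option autoImplicit false

namespace Pool.Agent.W363.GS

open Finset Filter
open Pool.Agent.W78.GT
open Pool.Agent.W358.GT (NT_ne NT_eq fib_n)

variable {t c : ℤ}

open scoped Classical in
/-- the triples with product in `P` -/
noncomputable def SP (t c : ℤ) (P : ℕ → Prop) (X : ℝ) : Finset Tr :=
  (tri t c X X).filter (fun e => P (NT e))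

lemma mem_SP {P : ℕ → Prop} {X : ℝ} {e : Tr} :
    e ∈ SP t c P X ↔ e ∈ tri t c X X ∧ P (NT e) := by
  simp [SP]

/-- the values of `n` with `Qp n` a natural number in `P` -/
def Val (t c : ℤ) (P : ℕ → Prop) (n : ℤ) : Prop :=
  ∃ m : ℕ, n ^ 2 + t * n + c = m ∧ P m

/-- from triples to integers -/
theorem count_of (htyp : S_TYPT t c) (hve : S_VET t c) (P : ℕ → Prop) (Bd : ℕ)
    (hP : ∀ m : ℕ, P m → m.divisors.card ≤ Bd * 2 ^ m.primeFactors.card)
    (h : ∃ κ : ℝ, 0 < κ ∧ ∃ X₀ : ℝ, ∀ X : ℝ, X₀ ≤ X → κ * X ≤ ((SP t c P X).card : ℝ)) (ε : ℝ)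
    (hε : 0 < ε) : ∃ N₀ : ℕ, ∀ N : ℕ, N₀ ≤ N →
    (N : ℝ) / Real.log N ^ (2 * Real.log 2 + ε) ≤
    (open scoped Classical in
    ((((Icc 1 N).filter (fun n : ℕ => Val t c P n)).card : ℕ) : ℝ)) := by
  classical
  obtain ⟨b, hb, X₁, hB⟩ := h
  set β : ℝ := (Bd : ℝ) + 1 with hβ
  have hβ0 : 0 < β := by positivity
  obtain ⟨C, hC, hve⟩ := hve
  set κ : ℝ := min 1 (b / (8 * C)) with hκ
  have hκ0 : 0 < κ := lt_min one_pos (by positivity)
  have hκ1 : κ ≤ 1 := min_le_left _ _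
  have hκ2 : C * κ ≤ b / 8 := by
    have : κ ≤ b / (8 * C) := min_le_right _ _
    calc C * κ ≤ C * (b / (8 * C)) := mul_le_mul_of_nonneg_left this hC.le
      _ = b / 8 := by field_simp
  obtain ⟨X₂, htyp⟩ := htyp (ε / 4) (b * κ / (8 * C)) (by linarith) (by positivity)
  set g : ℝ := 2 * (1 + ε / 4) * Real.log 2 with hg
  have hlog2 : Real.log 2 < 0.6931471808 := Real.log_two_lt_d9
  have hlog2p : 0 < Real.log 2 := Real.log_pos (by norm_num)
  have hgap : 0 < 2 * Real.log 2 + ε - g := by rw [hg]; nlinarith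
  -- the exceptional triples
  set K₀ : ℕ := ∑ n ∈ Icc (-|t|) 0, (Qp t c n).natAbs.divisors.card with hK₀
  have hmain : ∀ (N : ℕ) (X : ℝ), X = (N : ℝ) / 2 → X₁ ≤ X → X₂ ≤ X → 3 ≤ X → 4 * (K₀ : ℝ) / b ≤ X →
      |(t : ℝ)| + |(t : ℝ) ^ 2 - 4 * c| ≤ N →
      b / 2 * X ≤ β * Real.log N ^ g * ((((Icc 1 N).filter
        (fun n : ℕ => Val t c P n)).card : ℕ) : ℝ) := by
    intro N X hXN hN1 hN2 hN3 hN4 hN5
    have hXpos : (0 : ℝ) < X := by linarith
    set V := (rts t c X).filter (fun z =>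
      (1 + ε / 4) * Real.log (Real.log X) < (((z.1).primeFactors.card : ℕ) : ℝ)) with hV
    have hVc : (V.card : ℝ) ≤ b * κ / (8 * C) * X := htyp X hN2
    have hVE := hve κ X V hκ0 hκ1 (by linarith) (filter_subset _ _)
    set S0 := (SP t c P X).filter (fun e => ¬ (vx e ∈ V ∨ vy e ∈ V)) with hS
    set S' := S0.filter (fun e => ¬ e.2.1 ≤ 0) with hS'
    have hS1 : ((SP t c P X).card : ℝ) ≤
        (((tri t c X X).filter (fun e => vx e ∈ V ∨ vy e ∈ V)).card : ℝ) + S0.card := by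
      have : SP t c P X ⊆ (tri t c X X).filter (fun e => vx e ∈ V ∨ vy e ∈ V) ∪ S0 := by
        intro e he
        by_cases h7 : vx e ∈ V ∨ vy e ∈ V
        · exact mem_union_left _ (mem_filter.2 ⟨(mem_SP.1 he).1, h7⟩)
        · exact mem_union_right _ (mem_filter.2 ⟨he, h7⟩)
      exact_mod_cast (card_le_card this).trans (card_union_le _ _)
    have htri0 : ∀ e ∈ S0, e ∈ tri t c X X := by
      intro e he
      rw [hS, mem_filter, mem_SP] at he
      exact he.1.1
    have hS2 : (S0.card : ℝ) ≤ K₀ + S'.card := by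
      have h1 : S0 ⊆ S0.filter (fun e => e.2.1 ≤ 0) ∪ S' := by
        intro e he
        by_cases h7 : e.2.1 ≤ 0
        · exact mem_union_left _ (mem_filter.2 ⟨he, h7⟩)
        · exact mem_union_right _ (mem_filter.2 ⟨he, h7⟩)
      have h2 : (S0.filter (fun e => e.2.1 ≤ 0)).card ≤ K₀ := by
        have hm : ∀ e ∈ S0.filter (fun e => e.2.1 ≤ 0), e.2.1 ∈ Icc (-|t|) 0 := by
          intro e he
          obtain ⟨h3, h4⟩ := mem_filter.1 he
          obtain ⟨-, -, -, -, -, h5⟩ := mem_tri.1 (htri0 e h3)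
          rw [Finset.mem_Icc]
          have h6 := le_abs_self t
          have h7 := abs_nonneg t
          exact ⟨by omega, h4⟩
        rw [card_eq_sum_card_fiberwise (f := fun e : Tr => e.2.1) hm, hK₀]
        refine sum_le_sum fun n _ => ?_
        refine fib_n (X₁ := X) (X₂ := X) n _ fun e he => ?_
        obtain ⟨h3, h4⟩ := mem_filter.1 he
        exact ⟨htri0 e (mem_filter.1 h3).1, h4⟩
      have h4 := (card_le_card h1).trans (card_union_le _ _)
      exact_mod_cast h4.trans (Nat.add_le_add_right h2 _)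
    have hVE2 : C * (κ * X + (V.card : ℝ) / κ) ≤ b / 4 * X := by
      have h1 : (V.card : ℝ) / κ ≤ b / (8 * C) * X := by
        rw [div_le_iff₀ hκ0]
        calc (V.card : ℝ) ≤ b * κ / (8 * C) * X := hVc
          _ = b / (8 * C) * X * κ := by ring
      calc C * (κ * X + (V.card : ℝ) / κ) ≤ C * (κ * X + b / (8 * C) * X) := by
            apply mul_le_mul_of_nonneg_left _ hC.le
            linarith
        _ = C * κ * X + b / 8 * X := by field_simp
        _ ≤ b / 8 * X + b / 8 * X := by nlinarith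
        _ = b / 4 * X := by ring
    have hN6 : 4 * (K₀ : ℝ) ≤ b * X := by
      rw [div_le_iff₀ hb] at hN4
      linarith
    have hS3 : b / 2 * X ≤ S'.card := by
      have := hB X hN1
      linarith
    refine hS3.trans ?_
    set T := (Icc 1 N).filter (fun n : ℕ => Val t c P n) with hT
    have hval : ∀ e ∈ S', 1 ≤ e.2.1.toNat ∧ ((e.2.1.toNat : ℕ) : ℤ) = e.2.1 := by
      intro e he
      obtain ⟨he1, he2⟩ := mem_filter.1 he
      rw [not_le] at he2
      have := Int.toNat_of_nonneg he2.le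
      exact ⟨by omega, this⟩
    have hmaps : ∀ e ∈ S', e.2.1.toNat ∈ T := by
      intro e he
      obtain ⟨v1, v2⟩ := hval e he
      have he' := he
      rw [hS', mem_filter, hS, mem_filter, mem_SP] at he'
      obtain ⟨⟨⟨he1, he2⟩, -⟩, he4⟩ := he'
      have hne := NT_ne he1
      have hnt := NT_eq he1
      obtain ⟨m1, m2, m3, m4, m5, m6⟩ := mem_tri.1 he1
      rw [hT, mem_filter, Finset.mem_Icc]
      refine ⟨⟨v1, ?_⟩, ?_⟩
      · have h3 : (e.1 : ℝ) * e.2.2 ≤ X ^ 2 := by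
          rw [pow_two]
          exact mul_le_mul m2 m4 (Nat.cast_nonneg _) hXpos.le
        have hd := disc_tri he1
        have hd' : (2 * (e.2.1 : ℝ) + t) ^ 2 = 4 * (e.1 * e.2.2) + ((t : ℝ) ^ 2 - 4 * c) := by
          exact_mod_cast hd
        set B : ℝ := |(t : ℝ) ^ 2 - 4 * c| with hBdef
        have hB0 : 0 ≤ B := abs_nonneg _
        have hB1 : (t : ℝ) ^ 2 - 4 * c ≤ B := le_abs_self _
        have hX2 : 2 * X = N := by rw [hXN]; ring
        have h4 : 2 * (e.2.1 : ℝ) + t ≤ 2 * X + B := by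
          refine abs_le_of_sq_le_sq' ?_ (by linarith) |>.2
          have hX1 : 1 ≤ X := by linarith
          nlinarith
        have h7 : -(|t| : ℝ) ≤ (t : ℝ) := neg_abs_le _
        have h8 : ((e.2.1.toNat : ℕ) : ℝ) = (e.2.1 : ℝ) := by exact_mod_cast v2
        have h9 : ((e.2.1.toNat : ℕ) : ℝ) ≤ N := by rw [h8]; linarith
        exact_mod_cast h9
      · refine ⟨NT e, ?_, ?_⟩
        · rw [v2, hnt]
          rfl
        · exact he2
    have hfib : ∀ n ∈ T, ((S'.filter (fun e => e.2.1.toNat = n)).card : ℝ) ≤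
        β * Real.log N ^ g := by
      intro n _
      have hNX : X ≤ N := by rw [hXN]; linarith [(Nat.cast_nonneg N : (0 : ℝ) ≤ N)]
      rcases (S'.filter (fun e => e.2.1.toNat = n)).eq_empty_or_nonempty with h0 | h0
      · rw [h0, card_empty, Nat.cast_zero]
        have : 0 ≤ Real.log N := Real.log_nonneg (by linarith)
        positivity
      · obtain ⟨e₀, he₀⟩ := h0
        have hmem := (mem_filter.1 he₀).1
        obtain ⟨v1, v2⟩ := hval e₀ hmem
        rw [mem_filter, hS', mem_filter, hS, mem_filter, mem_SP] at he₀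
        obtain ⟨⟨⟨⟨he1, he2⟩, he5⟩, he4⟩, he6⟩ := he₀
        rw [he6] at v2
        have hne := NT_ne he1
        have hnt := NT_eq he1
        obtain ⟨m1, m2, m3, m4, m5, m6⟩ := mem_tri.1 he1
        have hω : (((NT e₀).primeFactors.card : ℕ) : ℝ) ≤
            2 * (1 + ε / 4) * Real.log (Real.log X) := by
          have h1 : ¬ vx e₀ ∈ V := fun hh => he5 (Or.inl hh)
          have h2 : ¬ vy e₀ ∈ V := fun hh => he5 (Or.inr hh)
          rw [hV, mem_filter, not_and, not_lt] at h1 h2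
          have h1 := h1 (vx_mem he1)
          have h2 := h2 (vy_mem he1)
          unfold vx at h1
          unfold vy at h2
          simp only at h1 h2
          have h3 : (NT e₀).primeFactors.card ≤
              (e₀.1).primeFactors.card + (e₀.2.2).primeFactors.card := by
            unfold NT
            rw [Nat.primeFactors_mul (by omega) (by omega)]
            exact card_union_le _ _
          have h3' : (((NT e₀).primeFactors.card : ℕ) : ℝ) ≤
              (e₀.1).primeFactors.card + (e₀.2.2).primeFactors.card := by exact_mod_cast h3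
          linarith
        have hlogX : 0 < Real.log X := Real.log_pos (by linarith)
        have hlogXN : Real.log X ≤ Real.log N := Real.log_le_log hXpos hNX
        have hg0 : 0 ≤ g := by rw [hg]; positivity
        have hdiv : (((NT e₀).divisors.card : ℕ) : ℝ) ≤ β * Real.log N ^ g := by
          have h1 := hP _ he2
          have h2 : (((NT e₀).divisors.card : ℕ) : ℝ) ≤
              β * (2 : ℝ) ^ ((NT e₀).primeFactors.card) := by
            have h3 : (((NT e₀).divisors.card : ℕ) : ℝ) ≤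
                (Bd : ℝ) * (2 : ℝ) ^ ((NT e₀).primeFactors.card) := by
              exact_mod_cast h1
            have h4 : (0 : ℝ) < (2 : ℝ) ^ ((NT e₀).primeFactors.card) := by positivity
            rw [hβ]
            nlinarith
          refine h2.trans (mul_le_mul_of_nonneg_left ?_ hβ0.le)
          calc (2 : ℝ) ^ ((NT e₀).primeFactors.card)
              = (2 : ℝ) ^ (((NT e₀).primeFactors.card : ℕ) : ℝ) := (Real.rpow_natCast _ _).symm
            _ ≤ (2 : ℝ) ^ (2 * (1 + ε / 4) * Real.log (Real.log X)) :=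
                Real.rpow_le_rpow_of_exponent_le (by norm_num) hω
            _ = Real.log X ^ g := by
                rw [Real.rpow_def_of_pos (by norm_num), Real.rpow_def_of_pos hlogX, hg]
                congr 1
                ring
            _ ≤ Real.log N ^ g := Real.rpow_le_rpow hlogX.le hlogXN hg0
        have hc1 := fib_n (t := t) (c := c) (X₁ := X) (X₂ := X) n
          (S'.filter (fun e => e.2.1.toNat = n)) (fun e he => by
            obtain ⟨g1, g2⟩ := mem_filter.1 he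
            obtain ⟨-, w2⟩ := hval e g1
            exact ⟨htri0 e (mem_filter.1 g1).1, by rw [← w2, g2]⟩)
        have hn1 : (Qp t c n).natAbs = NT e₀ := by
          rw [v2, ← hnt, Int.natAbs_natCast]
        rw [hn1] at hc1
        have h8 : ((S'.filter (fun e => e.2.1.toNat = n)).card : ℝ) ≤
            (((NT e₀).divisors.card : ℕ) : ℝ) := by exact_mod_cast hc1
        exact h8.trans hdiv
    have hsum : (S'.card : ℝ) =
        ∑ n ∈ T, ((S'.filter (fun e => e.2.1.toNat = n)).card : ℝ) := by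
      have := card_eq_sum_card_fiberwise (s := S') (t := T)
        (f := fun e : Tr => e.2.1.toNat) hmaps
      rw [this]
      push_cast
      rfl
    rw [hsum]
    refine (sum_le_sum hfib).trans ?_
    rw [sum_const, nsmul_eq_mul]
    linarith
  -- conclusion
  have hev : ∀ᶠ x : ℝ in atTop, 4 * β / b ≤ Real.log x ^ (2 * Real.log 2 + ε - g) :=
    ((tendsto_rpow_atTop hgap).comp Real.tendsto_log_atTop).eventually_ge_atTop _
  obtain ⟨x₀, hx₀⟩ := eventually_atTop.1 hev
  set B : ℝ := |(t : ℝ)| + |(t : ℝ) ^ 2 - 4 * c| with hBdef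
  refine ⟨⌈max (max (2 * X₁) (2 * X₂)) (max (max x₀ (8 * (K₀ : ℝ) / b)) B)⌉₊ + 6,
    fun N hN => ?_⟩
  have hN' : max (max (2 * X₁) (2 * X₂)) (max (max x₀ (8 * (K₀ : ℝ) / b)) B) ≤ (N : ℝ) := by
    refine (Nat.le_ceil _).trans ?_
    exact_mod_cast (by omega : ⌈max (max (2 * X₁) (2 * X₂))
      (max (max x₀ (8 * (K₀ : ℝ) / b)) B)⌉₊ ≤ N)
  have h1 : 2 * X₁ ≤ (N : ℝ) := (le_max_left _ _).trans ((le_max_left _ _).trans hN')
  have h2 : 2 * X₂ ≤ (N : ℝ) := (le_max_right _ _).trans ((le_max_left _ _).trans hN')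
  have h3 : x₀ ≤ (N : ℝ) :=
    (le_max_left _ _).trans ((le_max_left _ _).trans ((le_max_right _ _).trans hN'))
  have h4 : 8 * (K₀ : ℝ) / b ≤ (N : ℝ) :=
    (le_max_right _ _).trans ((le_max_left _ _).trans ((le_max_right _ _).trans hN'))
  have h4' : B ≤ (N : ℝ) := (le_max_right _ _).trans ((le_max_right _ _).trans hN')
  have hN3 : 6 ≤ N := by omega
  have hNr : (6 : ℝ) ≤ N := by exact_mod_cast hN3
  have h4'' : 4 * (K₀ : ℝ) / b ≤ (N : ℝ) / 2 := by
    have : 8 * (K₀ : ℝ) / b = 2 * (4 * (K₀ : ℝ) / b) := by ring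
    linarith
  have h5 := hmain N (N / 2) rfl (by linarith) (by linarith) (by linarith) h4'' h4'
  have h6 := hx₀ N h3
  have hlogpos : 0 < Real.log N := Real.log_pos (by linarith)
  generalize ((((Icc 1 N).filter (fun n : ℕ => Val t c P n)).card : ℕ) : ℝ) = τ at h5 ⊢
  have hgp : 0 < Real.log N ^ g := Real.rpow_pos_of_pos hlogpos _
  have hsplit : Real.log N ^ (2 * Real.log 2 + ε) =
      Real.log N ^ (2 * Real.log 2 + ε - g) * Real.log N ^ g := by
    rw [← Real.rpow_add hlogpos]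
    congr 1
    ring
  rw [div_le_iff₀ (Real.rpow_pos_of_pos hlogpos _), hsplit]
  have ht : 0 ≤ τ := by
    by_contra hneg
    push Not at hneg
    have : 0 < b / 2 * (N / 2) := by positivity
    have h8 : β * Real.log N ^ g * τ ≤ 0 :=
      mul_nonpos_of_nonneg_of_nonpos (by positivity) hneg.le
    linarith
  have h7 : (N : ℝ) ≤ 4 * β / b * (Real.log N ^ g * τ) := by
    rw [div_mul_eq_mul_div, le_div_iff₀ hb]
    linarith
  calc (N : ℝ) ≤ 4 * β / b * (Real.log N ^ g * τ) := h7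
    _ ≤ Real.log N ^ (2 * Real.log 2 + ε - g) * (Real.log N ^ g * τ) := by
        apply mul_le_mul_of_nonneg_right h6 (by positivity)
    _ = τ * (Real.log N ^ (2 * Real.log 2 + ε - g) * Real.log N ^ g) := by ring

/-- a positive proportion of the factorizations -/
theorem pairs_of (P : ℕ → Prop)
    (h : ∃ κ : ℝ, 0 < κ ∧ ∃ X₀ : ℝ, ∀ X : ℝ, X₀ ≤ X → κ * X ≤ ((SP t c P X).card : ℝ)) :
    ∃ κ : ℝ, 0 < κ ∧ ∃ N₀ : ℕ, ∀ N : ℕ, N₀ ≤ N → κ * N ≤
    (Set.ncard {p : ℕ × ℕ | 1 ≤ p.1 ∧ p.1 ≤ N ∧ 1 ≤ p.2 ∧ p.2 ≤ N ∧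
      (∃ n : ℤ, (p.1 : ℤ) * p.2 = n ^ 2 + t * n + c) ∧
      P (p.1 * p.2)} : ℝ) := by
  classical
  obtain ⟨κ, hκ, X₀, h⟩ := h
  refine ⟨κ, hκ, ⌈X₀⌉₊, fun N hN => ?_⟩
  have hX : X₀ ≤ (N : ℝ) := (Nat.le_ceil _).trans (by exact_mod_cast hN)
  have h1 := h N hX
  set T := (Icc 1 N ×ˢ Icc 1 N).filter (fun p : ℕ × ℕ =>
    (∃ n : ℤ, (p.1 : ℤ) * p.2 = n ^ 2 + t * n + c) ∧
      P (p.1 * p.2)) with hT
  have hcard : (SP t c P (N : ℝ)).card ≤ T.card := by
    refine card_le_card_of_injOn (fun x => (x.1, x.2.2)) ?_ ?_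
    · intro x hx
      obtain ⟨hx1, hx2⟩ := mem_SP.1 hx
      obtain ⟨m1, m2, m3, m4, m5, m6⟩ := mem_tri.1 hx1
      rw [hT, Finset.mem_coe, mem_filter, mem_product, Finset.mem_Icc, Finset.mem_Icc]
      exact ⟨⟨⟨m1, by exact_mod_cast m2⟩, ⟨m3, by exact_mod_cast m4⟩⟩, ⟨_, m5⟩, hx2⟩
    · intro x hx y hy hxy
      obtain ⟨hx1, -⟩ := mem_SP.1 hx
      obtain ⟨hy1, -⟩ := mem_SP.1 hy
      have h2 := disc_tri hx1
      have h3 := disc_tri hy1
      simp only [Prod.mk.injEq] at hxy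
      obtain ⟨k1, k2⟩ := hxy
      rw [k1, k2, ← h3] at h2
      have hx6 := (mem_tri.1 hx1).2.2.2.2.2
      have hy6 := (mem_tri.1 hy1).2.2.2.2.2
      have h4 : 2 * x.2.1 + t = 2 * y.2.1 + t := by
        rcases sq_eq_sq_iff_eq_or_eq_neg.1 h2 with h5 | h5
        · exact h5
        · omega
      exact tri_ext hx1 hy1 k1 (by omega)
  have hcard' : ((SP t c P (N : ℝ)).card : ℝ) ≤ (T.card : ℝ) := by exact_mod_cast hcard
  have hset : {p : ℕ × ℕ | 1 ≤ p.1 ∧ p.1 ≤ N ∧ 1 ≤ p.2 ∧ p.2 ≤ N ∧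
      (∃ n : ℤ, (p.1 : ℤ) * p.2 = n ^ 2 + t * n + c) ∧
      P (p.1 * p.2)} = (T : Set (ℕ × ℕ)) := by
    ext p
    rw [hT]
    simp only [Set.mem_ofPred_eq, coe_filter, mem_product, Finset.mem_Icc]
    tauto
  rw [hset, Set.ncard_coe_finset]
  linarith

theorem con_of (_hns : ¬ IsSquare (t ^ 2 - 4 * c)) (hvet : S_VET t c) (htypt : S_TYPT t c) :
    Pool.Agent.W78.GS.S_CON t c := by
  classical
  intro P Bd hP hpos
  have hB : ∃ κ : ℝ, 0 < κ ∧ ∃ X₀ : ℝ, ∀ X : ℝ, X₀ ≤ X → κ * X ≤ ((SP t c P X).card : ℝ) := by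
    obtain ⟨κ, hκ, X₀, h⟩ := hpos
    exact ⟨κ, hκ, X₀, fun X hX => h X hX⟩
  refine ⟨fun ε hε => ?_, pairs_of P hB⟩
  obtain ⟨N₀, hN⟩ := count_of htypt hvet P Bd hP hB ε hε
  refine ⟨N₀, fun N hN' => (hN N hN').trans (le_of_eq ?_)⟩
  have hset : {n : ℕ | 1 ≤ n ∧ n ≤ N ∧ ∃ m : ℕ, (n : ℤ) ^ 2 + t * n + c = m ∧ P m} =
      (((Icc 1 N).filter (fun n : ℕ => Val t c P n) : Finset ℕ) : Set ℕ) := by
    ext n
    rw [Finset.mem_coe, mem_filter, Finset.mem_Icc]
    unfold Val
    rw [Set.mem_ofPred_eq, and_assoc]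
  rw [hset, Set.ncard_coe_finset]

end Pool.Agent.W363.GS
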